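import Pool.Agent.Mg.F5bc3cb.G6378a4
import Pool.Agent.Mg.F5bc3cb.G2e464b

namespace Pool.Agent.Results.MP_5bc3cb_al.CombableNotAutomatic
open Pool.Agent.MP_5bc3cb_al

/-- There is a finitely generated group which is combable but not automatic. -/
theorem result : ∃ (G : Type) (_ : Group G),
    Group.FG G ∧ GroupCombable G ∧ ¬ IsAutomatic G := by
  obtain ⟨G, hG, ⟨Γ⟩, hc⟩ := exists_geo_combable
  refine ⟨G, hG, ?_, hc, Γ.not_automatic⟩
  obtain ⟨A, hA, hfin, -⟩ := hc
  exact Group.fg_iff.2 ⟨A, hA, hfin⟩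

end Pool.Agent.Results.MP_5bc3cb_al.CombableNotAutomatic
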