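import Pool.Agent.H89LM.PartB

namespace Pool.Agent.Results.MP_5bc3cb_al.LearyMinasyanAllRanks
open Pool.Agent.MP_5bc3cb_al

/-- An HNN extension of `ℤ ^ n` along a finite index subgroup, given by a matrix of infinite order
which is conjugate to an orthogonal matrix, is not automatic. -/
theorem result (n : ℕ) (A B : Subgroup (Multiplicative (Fin n → ℤ))) (hA : A.FiniteIndex)
    (φ : A ≃* B) (M : Matrix (Fin n) (Fin n) ℝ)
    (hφ : ∀ a : A, (fun i => ((φ a).1.toAdd i : ℝ)) = M.mulVec fun i => (a.1.toAdd i : ℝ))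
    (hO : ∃ P O : Matrix (Fin n) (Fin n) ℝ,
      IsUnit P ∧ O ∈ Matrix.orthogonalGroup (Fin n) ℝ ∧ P * M = O * P)
    (hinf : ∀ k : ℕ, 0 < k → M ^ k ≠ 1) :
    ¬ IsAutomatic (HNNExtension (Multiplicative (Fin n → ℤ)) A B φ) :=
  Pool.Agent.H89LM.main n A B hA φ M hφ hO hinf

end Pool.Agent.Results.MP_5bc3cb_al.LearyMinasyanAllRanks
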